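import Pool.Agent.H242.GX.Stm

/-!
Project GX (helper242): GX-RAD.
-/

open Set Filter Topology
open scoped ContDiff

namespace Pool.Agent.H663.GX

open Pool.Agent.H242.GX

/-- positivity of the solutions of `f'' + f > 0`, `f 0 = f' 0 = 0`, positive side. -/
theorem pos_right {f f' f'' : ℝ → ℝ} (h1 : ∀ b, HasDerivAt f (f' b) b)
    (h2 : ∀ b, HasDerivAt f' (f'' b) b) (h0 : f 0 = 0) (h0' : f' 0 = 0)
    (hpos : ∀ b, 0 < f'' b + f b) {b : ℝ} (hb : 0 < b) (hb' : b < Real.pi) : 0 < f b := by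
  set k : ℝ → ℝ := fun u => f' u * Real.sin (b - u) + f u * Real.cos (b - u) with hk
  have hd : ∀ u, HasDerivAt k ((f'' u + f u) * Real.sin (b - u)) u := by
    intro u
    have hs : HasDerivAt (fun u => Real.sin (b - u)) (-Real.cos (b - u)) u := by
      have := (Real.hasDerivAt_sin (b - u)).comp u ((hasDerivAt_id u).const_sub b)
      simpa [Function.comp_def] using this
    have hc : HasDerivAt (fun u => Real.cos (b - u)) (Real.sin (b - u)) u := by
      have := (Real.hasDerivAt_cos (b - u)).comp u ((hasDerivAt_id u).const_sub b)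
      simpa [Function.comp_def] using this
    have := ((h2 u).mul hs).add ((h1 u).mul hc)
    refine HasDerivAt.congr_deriv this ?_
    ring
  have hmono : StrictMonoOn k (Icc 0 b) := by
    apply strictMonoOn_of_deriv_pos (convex_Icc 0 b)
      (fun u _ => (hd u).continuousAt.continuousWithinAt)
    intro u hu
    rw [interior_Icc] at hu
    rw [(hd u).deriv]
    apply mul_pos (hpos u)
    exact Real.sin_pos_of_pos_of_lt_pi (by linarith [hu.2]) (by linarith [hu.1])
  have := hmono (left_mem_Icc.2 hb.le) (right_mem_Icc.2 hb.le) hb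
  simpa [hk, h0, h0'] using this

theorem pos_both {f f' f'' : ℝ → ℝ} (h1 : ∀ b, HasDerivAt f (f' b) b)
    (h2 : ∀ b, HasDerivAt f' (f'' b) b) (h0 : f 0 = 0) (h0' : f' 0 = 0)
    (hpos : ∀ b, 0 < f'' b + f b) {b : ℝ} (hb : b ≠ 0) (hb' : |b| < Real.pi) : 0 < f b := by
  rcases lt_or_gt_of_ne hb with h | h
  · have h1' : ∀ b, HasDerivAt (fun u => f (-u)) (-f' (-b)) b := by
      intro b
      have := (h1 (-b)).comp b (hasDerivAt_neg b)
      simpa [Function.comp_def] using this
    have h2' : ∀ b, HasDerivAt (fun u => -f' (-u)) (f'' (-b)) b := by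
      intro b
      have := ((h2 (-b)).comp b (hasDerivAt_neg b)).neg
      refine HasDerivAt.congr_deriv this ?_
      ring
    have := pos_right (f := fun u => f (-u)) (f' := fun u => -f' (-u)) (f'' := fun u => f'' (-u))
      h1' h2' (by simpa using h0) (by simpa using h0') (fun b => hpos (-b)) (b := -b) (by linarith)
      (by rw [abs_of_neg h] at hb'; exact hb')
    simpa using this
  · exact pos_right h1 h2 h0 h0' hpos h (by rwa [abs_of_pos h] at hb')

theorem mono_N {f f' f'' : ℝ → ℝ} (h1 : ∀ b, HasDerivAt f (f' b) b)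
    (h2 : ∀ b, HasDerivAt f' (f'' b) b) (hpos : ∀ b, 0 < f'' b + f b) :
    StrictMonoOn (fun u => f' u * Real.cos u + f u * Real.sin u)
      (Icc (-(Real.pi / 2)) (Real.pi / 2)) := by
  have hd : ∀ u, HasDerivAt (fun u => f' u * Real.cos u + f u * Real.sin u)
      ((f'' u + f u) * Real.cos u) u := by
    intro u
    have := ((h2 u).mul (Real.hasDerivAt_cos u)).add ((h1 u).mul (Real.hasDerivAt_sin u))
    refine HasDerivAt.congr_deriv this ?_
    ring
  apply strictMonoOn_of_deriv_pos (convex_Icc _ _)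
      (fun u _ => (hd u).continuousAt.continuousWithinAt)
  intro u hu
  rw [interior_Icc] at hu
  rw [(hd u).deriv]
  exact mul_pos (hpos u) (Real.cos_pos_of_mem_Ioo hu)

/-- `E` in the coordinates `(φ, β)`. -/
noncomputable def G (p : ℝ → ℝ) (x : ℝ × ℝ) : ℝ :=
  p (x.1 - x.2) - p x.1 * Real.cos x.2 + deriv p x.1 * Real.sin x.2

theorem G_eq (p : ℝ → ℝ) (φ β : ℝ) : Ef p (φ - β) β = G p (φ, β) := by
  unfold Ef Nf Df G
  simp only [sub_add_cancel]
  have := Real.sin_sq_add_cos_sq β
  linear_combination (p (φ - β)) * this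

theorem gx_RAD (hHAD : S_HAD) : S_RAD := by
  intro p hp
  have hps := hp.smooth
  have hdiff : Differentiable ℝ p := (contDiff_infty_iff_deriv.1 hps).1
  have hps1 : ContDiff ℝ ∞ (deriv p) := (contDiff_infty_iff_deriv.1 hps).2
  have hdiff1 : Differentiable ℝ (deriv p) := (contDiff_infty_iff_deriv.1 hps1).1
  have hdper : ∀ α, deriv p (α + 2 * Real.pi) = deriv p α := by
    intro α
    have h : (fun x => p (x + 2 * Real.pi)) = p := funext hp.per
    calc deriv p (α + 2 * Real.pi) = deriv (fun x => p (x + 2 * Real.pi)) α :=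
          (deriv_comp_add_const p (2 * Real.pi) α).symm
      _ = deriv p α := by rw [h]
  have hG : ContDiff ℝ ∞ (G p) := by
    unfold G
    exact ((hps.comp (contDiff_fst.sub contDiff_snd)).sub
      ((hps.comp contDiff_fst).mul (Real.contDiff_cos.comp contDiff_snd))).add
      ((hps1.comp contDiff_fst).mul (Real.contDiff_sin.comp contDiff_snd))
  -- the function of one variable
  have hf1 : ∀ φ b : ℝ, HasDerivAt (fun b => G p (φ, b))
      (-deriv p (φ - b) + p φ * Real.sin b + deriv p φ * Real.cos b) b := by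
    intro φ b
    unfold G
    have ha : HasDerivAt (fun b => p (φ - b)) (-deriv p (φ - b)) b := by
      have := (hdiff (φ - b)).hasDerivAt.comp b ((hasDerivAt_id b).const_sub φ)
      simpa [Function.comp_def] using this
    have := (ha.sub ((Real.hasDerivAt_cos b).const_mul (p φ))).add
      ((Real.hasDerivAt_sin b).const_mul (deriv p φ))
    refine HasDerivAt.congr_deriv this ?_
    ring
  have hf2 : ∀ φ b : ℝ, HasDerivAt
      (fun b => -deriv p (φ - b) + p φ * Real.sin b + deriv p φ * Real.cos b)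
      (deriv (deriv p) (φ - b) + p φ * Real.cos b - deriv p φ * Real.sin b) b := by
    intro φ b
    have ha : HasDerivAt (fun b => -deriv p (φ - b)) (deriv (deriv p) (φ - b)) b := by
      have := ((hdiff1 (φ - b)).hasDerivAt.comp b ((hasDerivAt_id b).const_sub φ)).neg
      refine HasDerivAt.congr_deriv this ?_
      ring
    have := (ha.add ((Real.hasDerivAt_sin b).const_mul (p φ))).add
      ((Real.hasDerivAt_cos b).const_mul (deriv p φ))
    refine HasDerivAt.congr_deriv this ?_
    ring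
  have hG0 : ∀ φ : ℝ, G p (φ, 0) = 0 := by intro φ; simp [G]
  have hG0' : ∀ φ : ℝ, -deriv p (φ - 0) + p φ * Real.sin 0 + deriv p φ * Real.cos 0 = 0 := by
    intro φ; simp
  have hode : ∀ φ b : ℝ, 0 < (deriv (deriv p) (φ - b) + p φ * Real.cos b - deriv p φ * Real.sin b)
      + G p (φ, b) := by
    intro φ b
    have h := hp.pos (φ - b)
    have : (deriv (deriv p) (φ - b) + p φ * Real.cos b - deriv p φ * Real.sin b) + G p (φ, b) =
        p (φ - b) + deriv (deriv p) (φ - b) := by unfold G; ring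
    rw [this]; exact h
  have hGpos : ∀ φ b : ℝ, b ≠ 0 → |b| < Real.pi → 0 < G p (φ, b) := fun φ b hb hb' =>
    pos_both (hf1 φ) (hf2 φ) (hG0 φ) (hG0' φ) (hode φ) hb hb'
  -- Hadamard
  obtain ⟨g₁, hg₁, hg₁e⟩ := hHAD (G p) hG hG0
  have hg₁0 : ∀ φ : ℝ, g₁ (φ, 0) = 0 := by
    intro φ
    have hgd : HasDerivAt (fun b => g₁ (φ, b)) (deriv (fun b => g₁ (φ, b)) 0) 0 := by
      apply DifferentiableAt.hasDerivAt
      exact (hg₁.comp (contDiff_const.prodMk contDiff_id)).differentiable (by simp) 0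
    have h3 : HasDerivAt (fun b => b * g₁ (φ, b)) (g₁ (φ, 0)) 0 := by
      have := (hasDerivAt_id (0:ℝ)).mul hgd
      refine HasDerivAt.congr_deriv this ?_
      simp
    have h4 : (fun b => b * g₁ (φ, b)) = fun b => G p (φ, b) := funext fun b => (hg₁e φ b).symm
    rw [h4] at h3
    exact h3.unique (by simpa using hf1 φ 0)
  obtain ⟨Q, hQ, hQe⟩ := hHAD g₁ hg₁ hg₁0
  have hGQ : ∀ φ b : ℝ, G p (φ, b) = b ^ 2 * Q (φ, b) := by
    intro φ b; rw [hg₁e, hQe]; ring
  have hQφ : ∀ φ : ℝ, ContDiff ℝ ∞ (fun b => Q (φ, b)) := fun φ =>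
    hQ.comp (contDiff_const.prodMk contDiff_id)
  have hQ0 : ∀ φ : ℝ, 0 < Q (φ, 0) := by
    intro φ
    have hq1 : Differentiable ℝ (fun b => Q (φ, b)) := (contDiff_infty_iff_deriv.1 (hQφ φ)).1
    have hq2 : Differentiable ℝ (deriv (fun b => Q (φ, b))) :=
      (contDiff_infty_iff_deriv.1 (contDiff_infty_iff_deriv.1 (hQφ φ)).2).1
    have h5 : (fun b => -deriv p (φ - b) + p φ * Real.sin b + deriv p φ * Real.cos b) =
        fun b => 2 * b * Q (φ, b) + b ^ 2 * deriv (fun b => Q (φ, b)) b := by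
      funext b
      have h6 : HasDerivAt (fun b => b ^ 2 * Q (φ, b))
          (2 * b * Q (φ, b) + b ^ 2 * deriv (fun b => Q (φ, b)) b) b := by
        have := (hasDerivAt_pow 2 b).mul (hq1 b).hasDerivAt
        refine HasDerivAt.congr_deriv this ?_
        simp
      have h7 : (fun b => b ^ 2 * Q (φ, b)) = fun b => G p (φ, b) :=
        funext fun b => (hGQ φ b).symm
      rw [h7] at h6
      exact (hf1 φ b).unique h6
    have h8 : HasDerivAt (fun b => 2 * b * Q (φ, b) + b ^ 2 * deriv (fun b => Q (φ, b)) b)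
        (2 * Q (φ, 0)) 0 := by
      have h9 := ((hasDerivAt_id (0:ℝ)).const_mul 2).mul (hq1 0).hasDerivAt
      have h10 := (hasDerivAt_pow 2 (0:ℝ)).mul (hq2 0).hasDerivAt
      have := h9.add h10
      refine HasDerivAt.congr_deriv this ?_
      simp
    rw [← h5] at h8
    have h11 := h8.unique (hf2 φ 0)
    have h12 := hode φ 0
    rw [← h11, hG0] at h12
    linarith
  have hcos : ∀ b : ℝ, |b| < Real.pi / 2 → 0 < Real.cos b := fun b hb =>
    Real.cos_pos_of_mem_Ioo ⟨by linarith [(abs_lt.1 hb).1], (abs_lt.1 hb).2⟩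
  have hQpos : ∀ φ b : ℝ, |b| < Real.pi / 2 → 0 < Q (φ, b) := by
    intro φ b hb
    rcases eq_or_ne b 0 with rfl | hb0
    · exact hQ0 φ
    · have h := hGpos φ b hb0 (by linarith [Real.pi_pos])
      rw [hGQ] at h
      exact (mul_pos_iff_of_pos_left (by positivity)).1 h
  have hqpos : ∀ φ b : ℝ, |b| < Real.pi / 2 → 0 < Q (φ, b) / Real.cos b := fun φ b hb =>
    div_pos (hQpos φ b hb) (hcos b hb)
  set R : ℝ × ℝ → ℝ := fun x => x.2 * Real.sqrt (Q x / Real.cos x.2) with hR
  have hopen : IsOpen {x : ℝ × ℝ | |x.2| < Real.pi / 2} :=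
    isOpen_lt (continuous_abs.comp continuous_snd) continuous_const
  have hsq : ContDiffOn ℝ ∞ (fun x : ℝ × ℝ => Real.sqrt (Q x / Real.cos x.2))
      {x | |x.2| < Real.pi / 2} := by
    apply ContDiffOn.sqrt
    · exact hQ.contDiffOn.div (Real.contDiff_cos.comp contDiff_snd).contDiffOn
        fun x hx => (hcos x.2 hx).ne'
    · intro x hx
      exact (hqpos x.1 x.2 hx).ne'
  have hRs : ContDiffOn ℝ ∞ R {x | |x.2| < Real.pi / 2} := contDiff_snd.contDiffOn.mul hsq
  have hRsq : ∀ φ β : ℝ, |β| < Real.pi / 2 → R (φ, β) ^ 2 = G p (φ, β) / Real.cos β := by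
    intro φ β hβ
    simp only [hR]
    rw [mul_pow, Real.sq_sqrt (hqpos φ β hβ).le, hGQ, mul_div_assoc]
  have hRpos : ∀ φ β : ℝ, |β| < Real.pi / 2 → 0 < β → 0 < R (φ, β) := fun φ β hβ h =>
    mul_pos h (Real.sqrt_pos.2 (hqpos φ β hβ))
  have hRneg : ∀ φ β : ℝ, |β| < Real.pi / 2 → β < 0 → R (φ, β) < 0 := fun φ β hβ h =>
    mul_neg_of_neg_of_pos h (Real.sqrt_pos.2 (hqpos φ β hβ))
  have hpi := Real.pi_pos
  refine ⟨R, hRs, ?_, ?_, ?_, ?_, ?_⟩
  · intro φ β hβ
    rw [hRsq φ β hβ, G_eq]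
  · intro φ β hβ
    have hsqφ : DifferentiableAt ℝ (fun b => Real.sqrt (Q (φ, b) / Real.cos b)) β := by
      have h1 : DifferentiableAt ℝ (fun x : ℝ × ℝ => Real.sqrt (Q x / Real.cos x.2)) (φ, β) :=
        (hsq.contDiffAt (hopen.mem_nhds hβ)).differentiableAt (by simp)
      exact h1.comp (f := fun b : ℝ => (φ, b)) β
        (((contDiff_const.prodMk contDiff_id).differentiable (n := ∞) (by simp)) β)
    have hRd : HasDerivAt (fun b => R (φ, b)) (Real.sqrt (Q (φ, β) / Real.cos β) +
        β * deriv (fun b => Real.sqrt (Q (φ, b) / Real.cos b)) β) β := by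
      have := (hasDerivAt_id β).mul hsqφ.hasDerivAt
      refine HasDerivAt.congr_deriv this ?_
      simp
    rcases eq_or_ne β 0 with rfl | hβ0
    · rw [hRd.deriv]
      simp only [zero_mul, add_zero]
      exact Real.sqrt_pos.2 (hqpos φ 0 hβ)
    · have hRd' : HasDerivAt (fun b => R (φ, b)) (deriv (fun b => R (φ, b)) β) β :=
        hRd.differentiableAt.hasDerivAt
      have hc0 := hcos β hβ
      have h2 : HasDerivAt (fun b => R (φ, b) ^ 2) (2 * R (φ, β) * deriv (fun b => R (φ, b)) β) β := by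
        have := hRd'.pow 2
        refine HasDerivAt.congr_deriv this ?_
        simp
      have h3 : HasDerivAt (fun b => G p (φ, b) / Real.cos b)
          (((-deriv p (φ - β) + p φ * Real.sin β + deriv p φ * Real.cos β) * Real.cos β +
            G p (φ, β) * Real.sin β) / Real.cos β ^ 2) β := by
        have := (hf1 φ β).div (Real.hasDerivAt_cos β) hc0.ne'
        refine HasDerivAt.congr_deriv this ?_
        ring
      have h4 : (fun b => R (φ, b) ^ 2) =ᶠ[𝓝 β] fun b => G p (φ, b) / Real.cos b := by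
        have : {b : ℝ | |b| < Real.pi / 2} ∈ 𝓝 β :=
          (isOpen_lt continuous_abs continuous_const).mem_nhds hβ
        filter_upwards [this] with b hb
        exact hRsq φ b hb
      have h5 := h2.unique (h3.congr_of_eventuallyEq h4)
      have hmono := mono_N (hf1 φ) (hf2 φ) (hode φ)
      have habs := abs_lt.1 hβ
      have h0mem : (0:ℝ) ∈ Icc (-(Real.pi / 2)) (Real.pi / 2) := ⟨by linarith, by linarith⟩
      have hβmem : β ∈ Icc (-(Real.pi / 2)) (Real.pi / 2) := ⟨habs.1.le, habs.2.le⟩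
      have hN0 : (fun u => (-deriv p (φ - u) + p φ * Real.sin u + deriv p φ * Real.cos u) *
          Real.cos u + G p (φ, u) * Real.sin u) 0 = 0 := by
        simp [hG0]
      have hcc : 0 < Real.cos β ^ 2 := by positivity
      rcases lt_or_gt_of_ne hβ0 with h | h
      · have h6 := hmono hβmem h0mem h
        rw [hN0] at h6
        have h7 : 2 * R (φ, β) * deriv (fun b => R (φ, b)) β < 0 := by
          rw [h5]; exact div_neg_of_neg_of_pos h6 hcc
        have h8 := hRneg φ β hβ h
        by_contra hcon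
        push Not at hcon
        have : 0 ≤ 2 * R (φ, β) * deriv (fun b => R (φ, b)) β := by
          have := mul_nonneg_of_nonpos_of_nonpos h8.le hcon
          linarith
        linarith
      · have h6 := hmono h0mem hβmem h
        rw [hN0] at h6
        have h7 : 0 < 2 * R (φ, β) * deriv (fun b => R (φ, b)) β := by
          rw [h5]; exact div_pos h6 hcc
        have h8 := hRpos φ β hβ h
        exact (mul_pos_iff_of_pos_left (by positivity)).1 h7
  · intro φ T
    have hcont : Continuous fun b : ℝ => G p (φ, b) - T ^ 2 * Real.cos b := by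
      have : Continuous fun b : ℝ => G p (φ, b) := (hG.comp (contDiff_const.prodMk contDiff_id)).continuous
      exact this.sub (continuous_const.mul Real.continuous_cos)
    have hkey : ∀ b : ℝ, |b| < Real.pi / 2 → 0 < G p (φ, b) - T ^ 2 * Real.cos b →
        T ^ 2 ≤ R (φ, b) ^ 2 := by
      intro b hb h
      rw [hRsq φ b hb, le_div_iff₀ (hcos b hb)]
      linarith
    obtain ⟨β₂, hβ₂, h2pos⟩ : ∃ b ∈ Ioo 0 (Real.pi / 2), 0 < G p (φ, b) - T ^ 2 * Real.cos b := by
      have h0 : 0 < G p (φ, Real.pi / 2) - T ^ 2 * Real.cos (Real.pi / 2) := by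
        rw [Real.cos_pi_div_two, mul_zero, sub_zero]
        exact hGpos φ _ (by positivity) (by rw [abs_of_pos (by positivity)]; linarith)
      have h1 : ∀ᶠ b in 𝓝[<] (Real.pi / 2), 0 < G p (φ, b) - T ^ 2 * Real.cos b :=
        (hcont.continuousAt.eventually (lt_mem_nhds h0)).filter_mono nhdsWithin_le_nhds
      have h2 : ∀ᶠ b in 𝓝[<] (Real.pi / 2), b ∈ Ioo 0 (Real.pi / 2) :=
        Ioo_mem_nhdsLT (by positivity)
      obtain ⟨b, hb⟩ := (h1.and h2).exists
      exact ⟨b, hb.2, hb.1⟩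
    obtain ⟨β₁, hβ₁, h1pos⟩ : ∃ b ∈ Ioo (-(Real.pi / 2)) 0, 0 < G p (φ, b) - T ^ 2 * Real.cos b := by
      have h0 : 0 < G p (φ, -(Real.pi / 2)) - T ^ 2 * Real.cos (-(Real.pi / 2)) := by
        rw [Real.cos_neg, Real.cos_pi_div_two, mul_zero, sub_zero]
        exact hGpos φ _ (by simp) (by rw [abs_neg, abs_of_pos (by positivity)]; linarith)
      have h1 : ∀ᶠ b in 𝓝[>] (-(Real.pi / 2)), 0 < G p (φ, b) - T ^ 2 * Real.cos b :=
        (hcont.continuousAt.eventually (lt_mem_nhds h0)).filter_mono nhdsWithin_le_nhds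
      have h2 : ∀ᶠ b in 𝓝[>] (-(Real.pi / 2)), b ∈ Ioo (-(Real.pi / 2)) 0 :=
        Ioo_mem_nhdsGT (by linarith)
      obtain ⟨b, hb⟩ := (h1.and h2).exists
      exact ⟨b, hb.2, hb.1⟩
    have ha₁ : |β₁| < Real.pi / 2 := abs_lt.2 ⟨hβ₁.1, by linarith [hβ₁.2]⟩
    have ha₂ : |β₂| < Real.pi / 2 := abs_lt.2 ⟨by linarith [hβ₂.1], hβ₂.2⟩
    refine ⟨β₁, β₂, ha₁, ha₂, ?_, ?_⟩
    · have h3 := hkey β₁ ha₁ h1pos
      have h4 := hRneg φ β₁ ha₁ hβ₁.2
      have h5 := sq_le_sq.1 h3
      rw [abs_of_neg h4] at h5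
      linarith [neg_abs_le T]
    · have h3 := hkey β₂ ha₂ h2pos
      have h4 := hRpos φ β₂ ha₂ hβ₂.1
      have h5 := sq_le_sq.1 h3
      rw [abs_of_pos h4] at h5
      linarith [le_abs_self T]
  · intro φ
    simp [hR]
  · intro φ β hβ
    rcases eq_or_ne β 0 with rfl | hβ0
    · simp [hR]
    · have hGper : G p (φ + 2 * Real.pi, β) = G p (φ, β) := by
        unfold G
        simp only
        rw [show φ + 2 * Real.pi - β = (φ - β) + 2 * Real.pi by ring, hp.per, hp.per, hdper]
      have hQper : Q (φ + 2 * Real.pi, β) = Q (φ, β) := by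
        rw [hGQ, hGQ] at hGper
        exact mul_left_cancel₀ (by positivity) hGper
      simp only [hR]
      rw [hQper]

end Pool.Agent.H663.GX
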